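import Pool.Agent.Lib.MP_e6e31f_co.Mg.G003
import Pool.Agent.Lib.MP_e6e31f_co.Mg.G001
import Pool.Agent.Lib.MP_e6e31f_co.Mg.G004

set_option autoImplicit false

namespace Pool.Agent.Lib.MP_e6e31f_co.LA

theorem upper {h : ℕ} (f g : (Fin h → Bool) → Fin h) (a b : ℤ) (hab : a + b ≤ 2)
    (hf : Lookahead f a) (hg : Lookahead g b) :
    ((Finset.univ.filter (fun p : (Fin h → Bool) × (Fin h → Bool) =>
      p.1 (f p.2) = true ∧ p.2 (g p.1) = true)).card : ℝ) / (4 : ℝ) ^ h ≤ 7 / 20 := by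
  rw [count]
  obtain ⟨N, F, G, hF, hG, hs⟩ := pad f g a b hab hf hg
  rw [← hs, ident hF hG]
  have h1 := Bk_le hF hG
  have h2 : (0 : ℝ) < 4 ^ (N + 1) := by positivity
  have h3 : Bk F G (fun _ => 1) (fun _ => 1) 0 / 4 ^ (N + 1) ≤ 2 / 5 := by
    rw [div_le_iff₀ h2]; exact h1
  linarith

theorem lower (ε : ℝ) (hε : 0 < ε) : ∃ (h : ℕ) (f g : (Fin h → Bool) → Fin h),
    Lookahead f 1 ∧ Lookahead g 1 ∧
    7 / 20 - ε < ((Finset.univ.filter (fun p : (Fin h → Bool) × (Fin h → Bool) =>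
      p.1 (f p.2) = true ∧ p.2 (g p.1) = true)).card : ℝ) / (4 : ℝ) ^ h := by
  obtain ⟨m, hm⟩ := exists_pow_lt_of_lt_one hε (show (1 / 16 : ℝ) < 1 by norm_num)
  obtain ⟨f, hf, hs⟩ := low m
  refine ⟨2 * m + 1, f, f, hf, hf, ?_⟩
  rw [count, hs]
  have h4 : (4 : ℝ) ^ (2 * m + 1) = 4 * 16 ^ m := by
    rw [pow_succ, pow_mul]; norm_num [mul_comm]
  have h5 : (1 / 16 : ℝ) ^ m = 1 / 16 ^ m := by rw [div_pow, one_pow]
  have h6 : (0 : ℝ) < 16 ^ m := by positivity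
  rw [h4]
  rw [h5] at hm
  have h7 : 8 / 5 * ((16 : ℝ) ^ m - 1) / (4 * 16 ^ m) = 2 / 5 - 2 / 5 * (1 / 16 ^ m) := by
    field_simp; ring
  rw [h7]
  have h8 : 0 < 1 / (16 : ℝ) ^ m := by positivity
  linarith

end Pool.Agent.Lib.MP_e6e31f_co.LA
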