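import Mathlib

set_option autoImplicit false

namespace Pool.Agent.Lib.MP_e6e31f_co.LA

/-- The strategy `f` (stack of the partner `↦` number of the named hat) has lookahead `a`: the event
that hat `k` is named is decided by the hats `≤ k + a` of the stack that `f` sees. -/
def Lookahead {h : ℕ} (f : (Fin h → Bool) → Fin h) (a : ℤ) : Prop :=
  ∀ y y' : Fin h → Bool, (∀ i : Fin h, (i : ℤ) ≤ (f y : ℤ) + a → y i = y' i) → f y' = f y

end Pool.Agent.Lib.MP_e6e31f_co.LA
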